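import Pool.Agent.Helper26.SQ2.Wid2

namespace Pool.Agent.Results.MP_fcb106_co.PowersOfTwo

open Pool.Agent.Helper3.DW

/-- If every computable poset of width `2 ^ (j + 1)` is covered by `k` computable chains, then
`10 k ≥ (21 + 9 √6) (2 + √6) ^ j + (21 - 9 √6) (2 - √6) ^ j + 8`. -/
theorem result (j k : ℕ) (h : Suffices (2 ^ (j + 1)) k) :
    (21 + 9 * Real.sqrt 6) * (2 + Real.sqrt 6) ^ j +
      (21 - 9 * Real.sqrt 6) * (2 - Real.sqrt 6) ^ j + 8 ≤ 10 * (k : ℝ) :=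
  (Pool.Agent.Helper26.SQ2.explicit k).1 j h

end Pool.Agent.Results.MP_fcb106_co.PowersOfTwo
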