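import Pool.Agent.Helper26.SQ2.NumW

namespace Pool.Agent.Results.MP_fcb106_co.SuperquadraticLowerBound

open Pool.Agent.Helper3.DW

/-- Superquadratic growth: if every computable poset of width `w` is covered by `k` computable
chains, then `w ^ 2.18 ≤ 2 * k`. -/
theorem result (w k : ℕ) (h : Suffices w k) : (w : ℝ) ^ (2.18 : ℝ) ≤ 2 * (k : ℝ) :=
  Pool.Agent.Helper26.SQ2.Wide.bound w k h

end Pool.Agent.Results.MP_fcb106_co.SuperquadraticLowerBound
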