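import Pool.Agent.Helper72.D5.All5

namespace Pool.Agent.Results.MP_fcb106_co.PolynomialUpperBound

open Pool.Agent.Helper3.DW

/-- Polynomial upper bounds: every computable poset of width `w` is covered by `w ^ 6 + 12 * w ^ 5`
computable chains, and by `(199 * w + 828) * w ^ 4 * (Nat.log 2 w + 1)` computable chains. -/
theorem result (w : ℕ) (hw : 1 ≤ w) :
    Suffices w (w ^ 6 + 12 * w ^ 5) ∧
      Suffices w ((199 * w + 828) * w ^ 4 * (Nat.log 2 w + 1)) :=
  ⟨Pool.Agent.Helper72.D4.all_FINAL4 w hw, Pool.Agent.Helper72.D5.all_FINAL5 w hw⟩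

end Pool.Agent.Results.MP_fcb106_co.PolynomialUpperBound
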